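import Pool.Agent.helper4.NF.SpecA
import Pool.Agent.helper59.DM.DV

set_option autoImplicit false

open Complex MeasureTheory

namespace Pool.Agent.NF

open Pool.Agent.helper84.DM Pool.Agent.helper78.ED Pool.Agent.DH Pool.Agent.ZD

/-- `(1 + log x)^2 ≤ C x^η` for `x ≥ 1`. -/
theorem JBD_log (η : ℝ) (hη : 0 < η) : ∃ C : ℝ, 0 < C ∧ ∀ x : ℝ, 1 ≤ x →
    (1 + Real.log x) ^ 2 ≤ C * x ^ η := by
  refine ⟨(1 + 1 / (η / 2)) ^ 2, by positivity, fun x hx => ?_⟩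
  have hx0 : 0 < x := by linarith
  have h1 : Real.log x ≤ x ^ (η / 2) / (η / 2) := Real.log_le_rpow_div hx0.le (by positivity)
  have h2 : (1 : ℝ) ≤ x ^ (η / 2) := Real.one_le_rpow hx (by positivity)
  have h3 : 0 ≤ Real.log x := Real.log_nonneg hx
  have h4 : 1 + Real.log x ≤ (1 + 1 / (η / 2)) * x ^ (η / 2) := by
    have : (1 + 1 / (η / 2)) * x ^ (η / 2) = x ^ (η / 2) + x ^ (η / 2) / (η / 2) := by ring
    rw [this]
    linarith
  have h5 : (x ^ (η / 2)) ^ 2 = x ^ η := by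
    rw [← Real.rpow_natCast, ← Real.rpow_mul hx0.le]
    congr 1
    push_cast
    ring
  calc (1 + Real.log x) ^ 2 ≤ ((1 + 1 / (η / 2)) * x ^ (η / 2)) ^ 2 :=
        pow_le_pow_left₀ (by linarith) h4 2
    _ = (1 + 1 / (η / 2)) ^ 2 * x ^ η := by rw [mul_pow, h5]

theorem JBD (hJ : JSP_stmt) (hD : DIB_stmt) (hO : OFC_stmt) : JBD_stmt := by
  intro g hg ε δ hε hδ hδ1
  obtain ⟨T₁, H1⟩ := hJ δ hδ hδ1
  obtain ⟨C₁, hC₁, H2⟩ := hD g hg
  obtain ⟨C₂, hC₂, H3⟩ := hO g hg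
  obtain ⟨Cd, hCd, Hd⟩ := divisor_bound (ε / 16) (by positivity)
  obtain ⟨Cl, hCl, Hl⟩ := JBD_log (ε / 8) (by positivity)
  set K : ℝ := Cd * 8 ^ (ε / 16) with hK
  set K' : ℝ := Cl * 8 ^ (ε / 8) with hK'
  have hKpos : 0 < K := by positivity
  have hK'pos : 0 < K' := by positivity
  refine ⟨66 * C₁ * K + C₂ * K ^ 2 * K', max T₁ (max 1 ((2 : ℝ) ^ (1 / δ))), by positivity, ?_⟩
  intro T hT W hW NP N X₀ b f Y hNP hN hX₀ hNX hX2 hb hY hYY
  have hT1 : T₁ ≤ T := (le_max_left _ _).trans hT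
  have hT2 : 1 ≤ T := (le_max_left _ _).trans ((le_max_right _ _).trans hT)
  have hT3 : (2 : ℝ) ^ (1 / δ) ≤ T := (le_max_right _ _).trans ((le_max_right _ _).trans hT)
  have hT0 : 0 < T := by linarith
  set E : ℝ := T ^ δ with hE
  have hE2 : 2 ≤ E := by
    have h1 := Real.rpow_le_rpow (by positivity) hT3 hδ.le
    rw [← Real.rpow_mul (by norm_num), one_div, inv_mul_cancel₀ hδ.ne', Real.rpow_one] at h1
    exact h1
  have hET : T ^ (1 + δ) = E * T := by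
    rw [Real.rpow_add hT0, Real.rpow_one, mul_comm]
  have hX1 : 1 ≤ X₀ := (Real.one_le_rpow hT2 (by norm_num)).trans hX₀
  have hX₀0 : 0 < X₀ := by linarith
  have hNP1 : (1 : ℝ) ≤ NP := by exact_mod_cast hNP
  have hN1 : (1 : ℝ) ≤ N := by exact_mod_cast hN
  set X : ℝ := (NP : ℝ) * X₀ with hX
  have hXX : X₀ ≤ X := le_mul_of_one_le_left hX₀0.le hNP1
  have hX0 : 0 < X := by linarith
  have hTT : 2 * T ≤ E * T := mul_le_mul_of_nonneg_right hE2 hT0.le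
  set M : ℕ := ⌊T ^ (1 + δ) / X⌋₊ with hM
  set M₀ : ℕ := ⌊T ^ (1 + δ) / X₀⌋₊ with hM₀
  have hET0 : 0 < E * T := by positivity
  have hM1 : (M : ℝ) ≤ T ^ (1 + δ) / X := Nat.floor_le (by rw [hET]; positivity)
  have hM2 : X * M ≤ E * T := by
    rw [le_div_iff₀ hX0, hET] at hM1
    linarith
  have hM₀1 : (M₀ : ℝ) ≤ T ^ (1 + δ) / X₀ := Nat.floor_le (by rw [hET]; positivity)
  have hM₀2 : X₀ * M₀ ≤ E * T := by
    rw [le_div_iff₀ hX₀0, hET] at hM₀1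
    linarith
  have hMpos : 1 ≤ M := by
    rw [hM, Nat.one_le_floor_iff, hET, one_le_div hX0]
    linarith
  have hM1' : (1 : ℝ) ≤ M := by exact_mod_cast hMpos
  have hMN : (M : ℝ) * N ≤ E * T := by
    have h1 : (M : ℝ) * N ≤ M * X := mul_le_mul_of_nonneg_left (hNX.trans hXX) (by positivity)
    linarith
  have hM₀N : (M₀ : ℝ) * N ≤ E * T := by
    have h1 : (M₀ : ℝ) * N ≤ M₀ * X₀ := mul_le_mul_of_nonneg_left hNX (by positivity)
    linarith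
  have hEle : E ≤ T := by
    rw [hE]
    calc T ^ δ ≤ T ^ (1 : ℝ) := Real.rpow_le_rpow_of_exponent_le hT2 (by linarith)
      _ = T := Real.rpow_one T
  have hET2 : E * T ≤ T ^ 2 := by
    rw [sq]
    exact mul_le_mul_of_nonneg_right hEle hT0.le
  set D : ℝ := K * T ^ (ε / 8) with hD'
  have hDpos : 0 < D := by positivity
  have h8 : (8 * T ^ 2) ^ (ε / 16) = 8 ^ (ε / 16) * T ^ (ε / 8) := by
    rw [Real.mul_rpow (by norm_num) (by positivity), ← Real.rpow_natCast, ← Real.rpow_mul hT0.le]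
    congr 2
    push_cast
    ring
  have h8' : (8 * T ^ 2) ^ (ε / 8) = 8 ^ (ε / 8) * T ^ (ε / 4) := by
    rw [Real.mul_rpow (by norm_num) (by positivity), ← Real.rpow_natCast, ← Real.rpow_mul hT0.le]
    congr 2
    push_cast
    ring
  have hdiv : ∀ k : ℕ, 1 ≤ k → k ≤ 4 * M * N + 4 * M₀ * N → d k ≤ D := by
    intro k hk1 hk2
    have h1 : (k : ℝ) ≤ 8 * T ^ 2 := by
      have h2 : (k : ℝ) ≤ 4 * M * N + 4 * M₀ * N := by exact_mod_cast hk2
      nlinarith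
    have h3 : (k : ℝ) ^ (ε / 16) ≤ (8 * T ^ 2) ^ (ε / 16) :=
      Real.rpow_le_rpow (by positivity) h1 (by positivity)
    calc d k ≤ Cd * (k : ℝ) ^ (ε / 16) := Hd k hk1
      _ ≤ Cd * (8 * T ^ 2) ^ (ε / 16) := mul_le_mul_of_nonneg_left h3 hCd.le
      _ = D := by rw [h8, hD', hK]; ring
  have hdiv' : ∀ k : ℕ, 1 ≤ k → k ≤ 4 * M * N → d k ≤ D := fun k hk1 hk2 =>
    hdiv k hk1 (hk2.trans (Nat.le_add_right _ _))
  have hE1 : 1 ≤ E := by linarith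
  have hlog : (1 + Real.log (8 * M * N)) ^ 2 ≤ K' * T ^ (ε / 4) := by
    have h1 : (1 : ℝ) ≤ 8 * M * N := by nlinarith
    have h2 : (8 : ℝ) * M * N ≤ 8 * T ^ 2 := by nlinarith
    calc (1 + Real.log (8 * M * N)) ^ 2 ≤ Cl * (8 * M * N) ^ (ε / 8) := Hl _ h1
      _ ≤ Cl * (8 * T ^ 2) ^ (ε / 8) :=
          mul_le_mul_of_nonneg_left (Real.rpow_le_rpow (by positivity) h2 (by positivity)) hCl.le
      _ = K' * T ^ (ε / 4) := by rw [h8', hK']; ring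
  set S : ℝ := ∑ t ∈ W, ‖f t‖ ^ 2 with hS
  have hS0 : 0 ≤ S := Finset.sum_nonneg fun t _ => by positivity
  have hfe : ∀ t, ‖f t * ex (-(t * Real.log X₀))‖ = ‖f t‖ := by
    intro t
    rw [norm_mul]
    have : ‖ex (-(t * Real.log X₀))‖ = 1 := by
      unfold ex
      rw [norm_exp_ofReal_mul_I]
    rw [this, mul_one]
  have hI : ∀ t ∈ W, ‖IW T g X M (Finset.Ioc N (4 * N)) b t t‖ ≤ C₁ * E ^ 2 * D * X ^ 2 * M * N :=
    fun t _ => H2 T E X D M N b t hT2 hE1 hN (hNX.trans hXX) hM2 hdiv' hb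
  have hsplit := H1 T hT1 W hW g hg X M X₀ M₀ (Finset.Ioc N (4 * N)) b f
    (C₁ * E ^ 2 * D * X ^ 2 * M * N) hX₀ (by rw [hET]; linarith)
    (Nat.lt_floor_add_one _).le (by positivity) hI
  have hSep : Sep 0 T W := ⟨hW.1, fun t ht t' ht' hne =>
    (Real.rpow_le_rpow_of_exponent_le hT2 hδ.le).trans (hW.2 t ht t' ht' hne)⟩
  have hoff := H3 T E X₀ D NP N M M₀ W (fun t => f t * ex (-(t * Real.log X₀))) b Y hT2 hE1 hNP hN
    hMpos hNX hM2 hSep hb hdiv hY (by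
      intro i hi θ hθ
      refine hYY i ?_ θ hθ
      have h1 : (2 : ℝ) ^ i ≤ 8 * M * N := by exact_mod_cast hi
      refine h1.trans ?_
      exact mul_le_mul_of_nonneg_right (mul_le_mul_of_nonneg_left hM1 (by norm_num)) (by positivity))
  simp only [hfe] at hoff
  rw [← hS] at hoff
  have hXM : X ^ 2 * M ≤ X * (E * T) := by
    have : X ^ 2 * M = X * (X * M) := by ring
    rw [this]
    exact mul_le_mul_of_nonneg_left hM2 hX0.le
  have hE3 : E ^ 3 = T ^ (3 * δ) := by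
    rw [hE, ← Real.rpow_natCast, ← Real.rpow_mul hT0.le]
    congr 1
    push_cast
    ring
  have hTe : T ^ (ε + 3 * δ) = T ^ ε * E ^ 3 := by rw [Real.rpow_add hT0, hE3]
  have hD1 : D ≤ K * T ^ ε :=
    mul_le_mul_of_nonneg_left (Real.rpow_le_rpow_of_exponent_le hT2 (by linarith)) hKpos.le
  have hD2 : D ^ 2 * (K' * T ^ (ε / 4)) ≤ K ^ 2 * K' * T ^ ε := by
    have h1 : D ^ 2 * (K' * T ^ (ε / 4)) = K ^ 2 * K' * (T ^ (ε / 8) * T ^ (ε / 8) * T ^ (ε / 4)) := by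
      rw [hD']; ring
    rw [h1, ← Real.rpow_add hT0, ← Real.rpow_add hT0]
    exact mul_le_mul_of_nonneg_left (Real.rpow_le_rpow_of_exponent_le hT2 (by linarith))
      (by positivity)
  have hP0 : 0 ≤ X * T * N * (X₀ * S + Y / NP) := by positivity
  have hA : (64 * X₀ + 2) * (C₁ * E ^ 2 * D * X ^ 2 * M * N) * S ≤
      66 * C₁ * K * T ^ (ε + 3 * δ) * (X * T * N * (X₀ * S + Y / NP)) := by
    have h1 : (64 * X₀ + 2) ≤ 66 * X₀ := by linarith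
    have h2 : C₁ * E ^ 2 * D * X ^ 2 * M * N ≤ C₁ * E ^ 2 * (K * T ^ ε) * (X * (E * T)) * N := by
      have : C₁ * E ^ 2 * D * X ^ 2 * M * N = C₁ * E ^ 2 * D * (X ^ 2 * M) * N := by ring
      rw [this]
      gcongr
    calc (64 * X₀ + 2) * (C₁ * E ^ 2 * D * X ^ 2 * M * N) * S
        ≤ (66 * X₀) * (C₁ * E ^ 2 * (K * T ^ ε) * (X * (E * T)) * N) * S := by gcongr
      _ = 66 * C₁ * K * T ^ (ε + 3 * δ) * (X * T * N * (X₀ * S + 0)) := by rw [hTe]; ring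
      _ ≤ 66 * C₁ * K * T ^ (ε + 3 * δ) * (X * T * N * (X₀ * S + Y / NP)) := by
          gcongr
          positivity
  have hB : C₂ * E ^ 2 * D ^ 2 * (1 + Real.log (8 * M * N)) ^ 2 * (((NP : ℝ) * X₀) ^ 2 * M) *
      (X₀ * S + N / NP * Y) ≤
      C₂ * K ^ 2 * K' * T ^ (ε + 3 * δ) * (X * T * N * (X₀ * S + Y / NP)) := by
    have h1 : X₀ * S + N / NP * Y ≤ N * (X₀ * S + Y / NP) := by
      have h2 : X₀ * S ≤ N * (X₀ * S) := le_mul_of_one_le_left (by positivity) hN1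
      have h3 : (N : ℝ) / NP * Y = N * (Y / NP) := by ring
      rw [h3, mul_add]
      linarith
    calc C₂ * E ^ 2 * D ^ 2 * (1 + Real.log (8 * M * N)) ^ 2 * (((NP : ℝ) * X₀) ^ 2 * M) *
          (X₀ * S + N / NP * Y)
        ≤ C₂ * E ^ 2 * D ^ 2 * (K' * T ^ (ε / 4)) * (X * (E * T)) * (N * (X₀ * S + Y / NP)) := by
          gcongr
      _ = C₂ * E ^ 3 * (D ^ 2 * (K' * T ^ (ε / 4))) * (X * T * N * (X₀ * S + Y / NP)) := by ring
      _ ≤ C₂ * E ^ 3 * (K ^ 2 * K' * T ^ ε) * (X * T * N * (X₀ * S + Y / NP)) := by gcongr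
      _ = C₂ * K ^ 2 * K' * T ^ (ε + 3 * δ) * (X * T * N * (X₀ * S + Y / NP)) := by
          rw [hTe]; ring
  calc _ ≤ _ := hsplit
    _ ≤ 66 * C₁ * K * T ^ (ε + 3 * δ) * (X * T * N * (X₀ * S + Y / NP)) +
        C₂ * K ^ 2 * K' * T ^ (ε + 3 * δ) * (X * T * N * (X₀ * S + Y / NP)) :=
          add_le_add hA (hoff.trans hB)
    _ = _ := by ring

end Pool.Agent.NF
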